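import Pool.Agent.W448.FF.Stmts

/-! FF-TRD: many triangles. -/

set_option autoImplicit false

namespace Pool.Agent.W249.FF

open Finset
open Pool.Agent.W448.FF

namespace Trd

variable {V : Type} [Fintype V] (G : OG V) (w : V → ℝ)

omit [Fintype V] in
lemma nn_symm (u v : V) : nn G u v = nn G v u := by
  have h : G.adj u v ↔ G.adj v u := or_comm
  unfold nn
  by_cases h1 : G.adj u v
  · rw [if_pos h1, if_pos (h.1 h1)]
  · rw [if_neg h1, if_neg (fun h2 => h1 (h.2 h2))]

omit [Fintype V] in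
lemma nn_01 (u v : V) : nn G u v = 0 ∨ nn G u v = 1 := by
  unfold nn
  split_ifs <;> simp

lemma T1 (hw : ∑ v, w v = 1) :
    ∑ u, ∑ v, ∑ z, w u * w v * w z * nn G u v = ∑ u, w u * Hh G w u := by
  refine Finset.sum_congr rfl fun u _ => ?_
  unfold Hh
  rw [Finset.mul_sum]
  refine Finset.sum_congr rfl fun v _ => ?_
  have : ∀ z, w u * w v * w z * nn G u v = w u * (w v * nn G u v) * w z := fun z => by ring
  simp only [this]
  rw [← Finset.mul_sum, hw, mul_one]

lemma T2 (hw : ∑ v, w v = 1) :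
    ∑ u, ∑ v, ∑ z, w u * w v * w z * nn G u z = ∑ u, w u * Hh G w u := by
  rw [← T1 G w hw]
  refine Finset.sum_congr rfl fun u _ => ?_
  rw [Finset.sum_comm]
  refine Finset.sum_congr rfl fun z _ => Finset.sum_congr rfl fun v _ => ?_
  ring

lemma T3 (hw : ∑ v, w v = 1) :
    ∑ u, ∑ v, ∑ z, w u * w v * w z * nn G v z = ∑ u, w u * Hh G w u := by
  have h1 : ∀ u, ∑ v, ∑ z, w u * w v * w z * nn G v z = w u * ∑ v, w v * Hh G w v := by
    intro u
    rw [Finset.mul_sum]
    refine Finset.sum_congr rfl fun v _ => ?_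
    unfold Hh
    rw [Finset.mul_sum, Finset.mul_sum]
    refine Finset.sum_congr rfl fun z _ => ?_
    ring
  simp only [h1]
  rw [← Finset.sum_mul, hw, one_mul]

lemma T4 : ∑ u, ∑ v, ∑ z, w u * w v * w z * (nn G u v * nn G v z) =
    ∑ v, w v * Hh G w v ^ 2 := by
  rw [Finset.sum_comm]
  refine Finset.sum_congr rfl fun v _ => ?_
  have h1 : ∀ u, ∑ z, w u * w v * w z * (nn G u v * nn G v z) =
      (w u * nn G v u) * (w v * Hh G w v) := by
    intro u
    unfold Hh
    rw [Finset.mul_sum, Finset.mul_sum]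
    refine Finset.sum_congr rfl fun z _ => ?_
    rw [nn_symm G u v]
    ring
  simp only [h1]
  rw [← Finset.sum_mul]
  unfold Hh
  ring

lemma T5 : ∑ u, ∑ v, ∑ z, w u * w v * w z * (nn G u z * nn G v z) =
    ∑ v, w v * Hh G w v ^ 2 := by
  rw [← T4 G w]
  refine Finset.sum_congr rfl fun u _ => ?_
  rw [Finset.sum_comm]
  refine Finset.sum_congr rfl fun z _ => Finset.sum_congr rfl fun v _ => ?_
  rw [nn_symm G v z]
  ring

lemma T0 (hw : ∑ v, w v = 1) : ∑ u, ∑ v, ∑ z, w u * w v * w z = 1 := by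
  simp only [← Finset.mul_sum, hw, mul_one]

end Trd

open Trd in
theorem trd : S_TRD := by
  intro V _ G w ⟨hw0, hw⟩
  have h1 : ∑ u, ∑ v, ∑ z, (w u * w v * w z - w u * w v * w z * nn G u v -
      w u * w v * w z * nn G u z - w u * w v * w z * nn G v z +
      w u * w v * w z * (nn G u v * nn G v z) + w u * w v * w z * (nn G u z * nn G v z)) ≤
      ∑ u, ∑ v, ∑ z, w u * w v * w z * ((1 - nn G u v) * (1 - nn G u z) * (1 - nn G v z)) := by
    refine Finset.sum_le_sum fun u _ => Finset.sum_le_sum fun v _ =>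
      Finset.sum_le_sum fun z _ => ?_
    have hW : 0 ≤ w u * w v * w z := mul_nonneg (mul_nonneg (hw0 u) (hw0 v)) (hw0 z)
    rcases nn_01 G u v with ha | ha <;> rcases nn_01 G u z with hb | hb <;>
      rcases nn_01 G v z with hc | hc <;> rw [ha, hb, hc] <;> nlinarith
  refine le_trans ?_ h1
  simp only [Finset.sum_add_distrib, Finset.sum_sub_distrib]
  rw [T0 w hw, T1 G w hw, T2 G w hw, T3 G w hw, T4, T5]
  have h2 : ∑ v, w v * Hh G w v = 1 / 3 + ∑ v, w v * (Hh G w v - 1 / 3) := by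
    simp only [mul_sub, Finset.sum_sub_distrib, ← Finset.sum_mul, hw]
    ring
  have h3 : ∑ v, w v * Hh G w v ^ 2 = 1 / 9 + 2 / 3 * ∑ v, w v * (Hh G w v - 1 / 3) +
      ∑ v, w v * (Hh G w v - 1 / 3) ^ 2 := by
    have : ∀ v, w v * Hh G w v ^ 2 = 1 / 9 * w v + 2 / 3 * (w v * (Hh G w v - 1 / 3)) +
        w v * (Hh G w v - 1 / 3) ^ 2 := fun v => by ring
    simp only [this, Finset.sum_add_distrib, ← Finset.mul_sum, hw]
    ring
  have h4 : 0 ≤ ∑ v, w v * (Hh G w v - 1 / 3) ^ 2 :=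
    Finset.sum_nonneg fun v _ => mul_nonneg (hw0 v) (sq_nonneg _)
  rw [h2, h3]
  linarith


end Pool.Agent.W249.FF
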